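import Pool.Agent.W792.WA.Stm6
import Pool.Agent.W853.WA.Semi

set_option autoImplicit false

/-!
# WA6-WH: the semicircle function is Hölder continuous of exponent 2/3
-/

namespace Pool.Agent.W596.WA.WH

open MeasureTheory Filter Pool.Agent.W792.LL Pool.Agent.W792.WA Pool.Agent.W853.WA
open scoped Topology

theorem semi_psc : IsSemi psc := by
  refine ⟨?_, ?_, ?_⟩
  · intro t
    obtain ⟨φ, rfl⟩ := QuotientAddGroup.mk_surjective t
    have := psc_coe φ
    rw [show psc (QuotientAddGroup.mk φ) = psr φ from this]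
    exact Real.abs_cos_le_one _
  · intro a
    apply Set.Countable.measure_zero
    by_cases h : ∃ θ₀ : ℝ, Real.cos θ₀ = a
    · obtain ⟨θ₀, rfl⟩ := h
      apply Set.Countable.mono (s₂ := Set.range (fun k : ℤ => Ph (2 * k * Real.pi + θ₀)) ∪
        Set.range (fun k : ℤ => Ph (2 * k * Real.pi - θ₀)))
      · rintro φ ⟨-, hφ⟩
        rw [psc_coe] at hφ
        obtain ⟨θ, rfl⟩ := Ph_surj φ
        rw [psr_Ph] at hφ
        obtain ⟨k, hk | hk⟩ := Real.cos_eq_cos_iff.1 hφ.symm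
        · exact Or.inl ⟨k, by rw [hk]⟩
        · exact Or.inr ⟨k, by rw [hk]⟩
      · exact (Set.countable_range _).union (Set.countable_range _)
    · have : {φ : ℝ | φ ∈ Set.Ioc (0 : ℝ) 1 ∧ psc (φ : UnitAddCircle) = a} = ∅ := by
        ext φ
        simp only [Set.mem_ofPred_eq, Set.mem_empty_iff_false, iff_false, not_and]
        intro _ hφ
        rw [psc_coe] at hφ
        exact h ⟨_, hφ⟩
      rw [this]
      exact Set.countable_empty
  · intro w hw
    obtain ⟨x, hx, he, hi⟩ := semi_int w hw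
    have hI : ∫ φ in Set.Ioc (0 : ℝ) 1, 1 / (w + (psc (φ : UnitAddCircle) : ℂ)) = 2 * x := by
      rw [← intervalIntegral.integral_of_le zero_le_one]
      simp only [psc_coe]
      have hne : ∀ φ : ℝ, w + (psr φ : ℂ) ≠ 0 := by
        intro φ h
        have := congrArg Complex.im h
        simp only [Complex.add_im, Complex.ofReal_im, add_zero, Complex.zero_im] at this
        linarith
      have hc : Continuous fun φ : ℝ => 1 / (w + (psr φ : ℂ)) := by
        apply continuous_const.div _ hne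
        have := psr_cont
        fun_prop
      have h1 := intervalIntegral.integral_comp_smul_deriv (a := 0) (b := 2 * Real.pi) (f := Ph)
        (f' := fun θ => (1 - Real.cos θ ^ 2) / Real.pi) (g := fun φ : ℝ => 1 / (w + (psr φ : ℂ)))
        (fun θ _ => Ph_deriv θ) (by fun_prop) hc
      rw [Ph_zero, Ph_two_pi] at h1
      rw [← h1, ← hi]
      congr 1
      ext θ
      simp only [Function.comp_apply, psr_Ph, Complex.real_smul]
      ring
    rw [hI]
    constructor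
    · rw [norm_mul]
      have : ‖(2 : ℂ)‖ = 2 := by simp
      rw [this]
      linarith
    · linear_combination he


/-- the difference of the distribution function -/
theorem Ph_diff (a v : ℝ) : 2 * Real.pi * (Ph (a + 2 * v) - Ph a)
    = (2 * v - Real.sin (2 * v)) + 2 * Real.sin (a + v) ^ 2 * Real.sin (2 * v) := by
  have h0 : (2 * Real.pi) ≠ 0 := by positivity
  have h1 : Real.sin (2 * (a + 2 * v)) - Real.sin (2 * a)
      = 2 * (Real.sin (2 * v) * Real.cos (2 * (a + v))) := by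
    rw [Real.sin_sub_sin]
    have e1 : (2 * (a + 2 * v) - 2 * a) / 2 = 2 * v := by ring
    have e2 : (2 * (a + 2 * v) + 2 * a) / 2 = 2 * (a + v) := by ring
    rw [e1, e2]
    ring
  have h2 : Real.cos (2 * (a + v)) = 1 - 2 * Real.sin (a + v) ^ 2 := by
    rw [Real.cos_two_mul]
    have := Real.sin_sq_add_cos_sq (a + v)
    linarith
  rw [h2] at h1
  unfold Ph
  have h3 : 2 * Real.pi * ((a + 2 * v - Real.sin (2 * (a + 2 * v)) / 2) / (2 * Real.pi)
      - (a - Real.sin (2 * a) / 2) / (2 * Real.pi))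
      = 2 * v - (Real.sin (2 * (a + 2 * v)) - Real.sin (2 * a)) / 2 := by
    field_simp
    ring
  rw [h3, h1]
  ring

theorem cos_diff (a v : ℝ) : Real.cos (a + 2 * v) - Real.cos a
    = -2 * Real.sin (a + v) * Real.sin v := by
  rw [Real.cos_sub_cos]
  have e1 : (a + 2 * v + a) / 2 = a + v := by ring
  have e2 : (a + 2 * v - a) / 2 = v := by ring
  rw [e1, e2]

theorem lower (a v : ℝ) (hv : 0 ≤ v) (hv1 : v ≤ 1 / 2) :
    (v ^ 3 + Real.sin (a + v) ^ 2 * v) / 2 ≤ 2 * Real.pi * (Ph (a + 2 * v) - Ph a) := by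
  rw [Ph_diff]
  rcases hv.eq_or_lt with h | h
  · rw [← h]; simp
  have h1 := Real.sin_gt_sub_cube (x := 2 * v) (by linarith)
  have h2 := Real.sin_bound (x := 2 * v) (by rw [abs_of_nonneg (by linarith)]; linarith)
  rw [abs_of_nonneg (by linarith : (0:ℝ) ≤ 2 * v)] at h2
  have h3 := (abs_le.1 h2).2
  have hs : (0 : ℝ) ≤ Real.sin (a + v) ^ 2 := sq_nonneg _
  have h4 : 3 / 2 * v ≤ Real.sin (2 * v) := by
    have : v ^ 3 ≤ v * (1 / 4) := by
      have : v ^ 3 = v * v ^ 2 := by ring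
      rw [this]
      apply mul_le_mul_of_nonneg_left _ h.le
      nlinarith
    nlinarith
  have h5 : v ^ 3 / 2 ≤ 2 * v - Real.sin (2 * v) := by
    have h6 : v ^ 4 ≤ v ^ 3 * (1 / 2) := by
      have : v ^ 4 = v ^ 3 * v := by ring
      rw [this]
      exact mul_le_mul_of_nonneg_left hv1 (by positivity)
    have h7 : 0 ≤ v ^ 3 := by positivity
    nlinarith
  have h8 : Real.sin (a + v) ^ 2 * (3 / 2 * v) ≤ Real.sin (a + v) ^ 2 * Real.sin (2 * v) :=
    mul_le_mul_of_nonneg_left h4 hs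
  have h9 : 0 ≤ Real.sin (a + v) ^ 2 * v := by positivity
  nlinarith

theorem cube_small (a v : ℝ) (hv : 0 ≤ v) (hv1 : v ≤ 1 / 2) :
    |Real.cos (a + 2 * v) - Real.cos a| ^ 3
      ≤ 16 * (2 * Real.pi * (Ph (a + 2 * v) - Ph a)) ^ 2 := by
  have h1 := lower a v hv hv1
  rw [cos_diff]
  set s := |Real.sin (a + v)| with hs
  have hs0 : 0 ≤ s := abs_nonneg _
  have hss : Real.sin (a + v) ^ 2 = s ^ 2 := by rw [hs, sq_abs]
  rw [hss] at h1
  set D := 2 * Real.pi * (Ph (a + 2 * v) - Ph a) with hD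
  have h2 : |(-2) * Real.sin (a + v) * Real.sin v| ≤ 2 * s * v := by
    rw [abs_mul, abs_mul]
    have e : |(-2 : ℝ)| = 2 := by norm_num
    rw [e, ← hs]
    have : |Real.sin v| ≤ v := by
      rw [abs_of_nonneg (Real.sin_nonneg_of_nonneg_of_le_pi hv (by
        have := Real.pi_gt_three
        linarith))]
      exact Real.sin_le hv
    exact mul_le_mul_of_nonneg_left this (by positivity)
  have h3 : |(-2) * Real.sin (a + v) * Real.sin v| ^ 3 ≤ (2 * s * v) ^ 3 :=
    pow_le_pow_left₀ (abs_nonneg _) h2 3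
  have h4 : (2 * s * v) ^ 3 ≤ 4 * (v ^ 3 + s ^ 2 * v) ^ 2 := by
    have h5 : v * s ^ 3 ≤ (v ^ 2 + s ^ 2) ^ 2 / 2 := by
      have h6 : 0 ≤ (v - s) ^ 2 := sq_nonneg _
      have h7 : v * s ≤ (v ^ 2 + s ^ 2) / 2 := by nlinarith
      have h8 : v * s * s ^ 2 ≤ (v ^ 2 + s ^ 2) / 2 * (v ^ 2 + s ^ 2) := by
        apply mul_le_mul h7 _ (sq_nonneg _) (by positivity)
        nlinarith [sq_nonneg v]
      nlinarith
    have h9 : v ^ 2 * (v * s ^ 3) ≤ v ^ 2 * ((v ^ 2 + s ^ 2) ^ 2 / 2) :=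
      mul_le_mul_of_nonneg_left h5 (sq_nonneg _)
    have e1 : (2 * s * v) ^ 3 = 8 * (v ^ 2 * (v * s ^ 3)) := by ring
    have e2 : 4 * (v ^ 3 + s ^ 2 * v) ^ 2 = 8 * (v ^ 2 * ((v ^ 2 + s ^ 2) ^ 2 / 2)) := by ring
    rw [e1, e2]
    linarith
  have h10 : 0 ≤ v ^ 3 + s ^ 2 * v := by positivity
  have h11 : (v ^ 3 + s ^ 2 * v) ^ 2 ≤ (2 * D) ^ 2 :=
    pow_le_pow_left₀ h10 (by linarith) 2
  calc |(-2) * Real.sin (a + v) * Real.sin v| ^ 3 ≤ (2 * s * v) ^ 3 := h3
    _ ≤ 4 * (v ^ 3 + s ^ 2 * v) ^ 2 := h4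
    _ ≤ 4 * (2 * D) ^ 2 := by linarith
    _ = 16 * D ^ 2 := by ring

theorem cube_all (a b : ℝ) (hab : a ≤ b) :
    |Real.cos b - Real.cos a| ^ 3 ≤ 2048 * (2 * Real.pi * (Ph b - Ph a)) ^ 2 := by
  by_cases h : b ≤ a + 1
  · have := cube_small a ((b - a) / 2) (by linarith) (by linarith)
    have e : a + 2 * ((b - a) / 2) = b := by ring
    rw [e] at this
    have h2 : 0 ≤ (2 * Real.pi * (Ph b - Ph a)) ^ 2 := sq_nonneg _
    linarith
  · push Not at h
    have h1 := lower a (1 / 2) (by norm_num) le_rfl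
    have e : a + 2 * (1 / 2 : ℝ) = a + 1 := by ring
    rw [e] at h1
    have h2 : 0 ≤ Real.sin (a + 1 / 2) ^ 2 * (1 / 2 : ℝ) := by positivity
    have h3 : (1 : ℝ) / 16 ≤ 2 * Real.pi * (Ph (a + 1) - Ph a) := by
      have : ((1 : ℝ) / 2) ^ 3 = 1 / 8 := by norm_num
      rw [this] at h1
      linarith
    have h4 : Ph (a + 1) ≤ Ph b := (Ph_mono h).le
    have hp : 0 < 2 * Real.pi := by positivity
    have h5 : 2 * Real.pi * (Ph (a + 1) - Ph a) ≤ 2 * Real.pi * (Ph b - Ph a) :=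
      mul_le_mul_of_nonneg_left (by linarith) hp.le
    have h6 : ((1 : ℝ) / 16) ^ 2 ≤ (2 * Real.pi * (Ph b - Ph a)) ^ 2 :=
      pow_le_pow_left₀ (by norm_num) (by linarith) 2
    have h7 : |Real.cos b - Real.cos a| ≤ 2 := by
      rw [abs_le]
      have := Real.cos_le_one a
      have := Real.cos_le_one b
      have := Real.neg_one_le_cos a
      have := Real.neg_one_le_cos b
      constructor <;> linarith
    have h8 : |Real.cos b - Real.cos a| ^ 3 ≤ 2 ^ 3 := pow_le_pow_left₀ (abs_nonneg _) h7 3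
    norm_num at h6 h8
    linarith

theorem cube_psr (s t : ℝ) : |psr s - psr t| ^ 3 ≤ 47 ^ 3 * |s - t| ^ 2 := by
  wlog hst : t ≤ s generalizing s t
  · rw [abs_sub_comm (psr s), abs_sub_comm s]
    exact this t s (le_of_not_ge hst)
  obtain ⟨b, rfl⟩ := Ph_surj s
  obtain ⟨a, rfl⟩ := Ph_surj t
  have hab : a ≤ b := Ph_mono.le_iff_le.1 hst
  have h := cube_all a b hab
  rw [psr_Ph, psr_Ph, sq_abs]
  have h1 : (2 * Real.pi * (Ph b - Ph a)) ^ 2 ≤ 49 * (Ph b - Ph a) ^ 2 := by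
    rw [mul_pow]
    apply mul_le_mul_of_nonneg_right _ (sq_nonneg _)
    have := Real.pi_lt_d2
    have := Real.pi_pos
    nlinarith
  have h2 : 0 ≤ (Ph b - Ph a) ^ 2 := sq_nonneg _
  norm_num
  nlinarith

theorem main : S_WH := by
  refine ⟨psc, semi_psc, 47, fun s t => ?_⟩
  rw [psc_coe, psc_coe]
  by_contra hcon
  push Not at hcon
  have h0 : 0 ≤ |s - t| ^ (2 / 3 : ℝ) := Real.rpow_nonneg (abs_nonneg _) _
  have h1 : (47 * |s - t| ^ (2 / 3 : ℝ)) ^ 3 < |psr s - psr t| ^ 3 :=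
    pow_lt_pow_left₀ hcon (by positivity) (by norm_num)
  have h2 := cube_psr s t
  have h3 : (|s - t| ^ (2 / 3 : ℝ)) ^ 3 = |s - t| ^ 2 := by
    rw [← Real.rpow_natCast (|s - t| ^ (2 / 3 : ℝ)) 3, ← Real.rpow_mul (abs_nonneg _)]
    have : (2 / 3 : ℝ) * ((3 : ℕ) : ℝ) = ((2 : ℕ) : ℝ) := by norm_num
    rw [this, Real.rpow_natCast]
  rw [mul_pow, h3] at h1
  linarith

end Pool.Agent.W596.WA.WH
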